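import Pool.Agent.W6h79.LD.All9

/-!
# MP_3844f5_an : `L¹(μ)` isomorphic to a dual Banach space

A necessary condition for every measure `μ`, in terms of the number of sets of finite measure
needed to cover the nonatomic part and the parts of large density character; it is sufficient for
all measures whose homogeneous atomless pieces have as density character `ℵ₀` or a regular cardinal
larger than `ℵ₁`.
-/

open MeasureTheory Set
open scoped ENNReal

noncomputable section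

namespace Pool.Agent.Results.MP_3844f5_an.RegularTypes

/-- `A` is an atom of `μ`. -/
def Atom.{u} {Ω : Type u} [MeasurableSpace Ω] (μ : Measure Ω) (A : Set Ω) : Prop :=
  MeasurableSet A ∧ 0 < μ A ∧ ∀ B ⊆ A, MeasurableSet B → μ B = 0 ∨ μ (A \ B) = 0

/-- Every measurable set of finite positive measure contains an atom. -/
def PurelyAtomic.{u} {Ω : Type u} [MeasurableSpace Ω] (μ : Measure Ω) : Prop :=
  ∀ E : Set Ω, MeasurableSet E → 0 < μ E → μ E < ∞ → ∃ A ⊆ E, Atom μ A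

/-- `X` has a dense subset with fewer than `κ` points. -/
def DensityLT.{u} (κ : Cardinal.{u}) (X : Type u) [TopologicalSpace X] : Prop :=
  ∃ D : Set X, Dense D ∧ Cardinal.mk D < κ

/-- `𝓢` covers the nonatomic part of `μ`. -/
def CoversNonatomic.{u} {Ω : Type u} [MeasurableSpace Ω] (μ : Measure Ω) (𝓢 : Set (Set Ω)) :
    Prop :=
  (∀ S ∈ 𝓢, MeasurableSet S ∧ μ S < ∞) ∧
  ∀ E : Set Ω, MeasurableSet E → 0 < μ E → μ E < ∞ → (∀ S ∈ 𝓢, μ (E ∩ S) = 0) →
    ∃ A ⊆ E, Atom μ A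

/-- `𝓢` covers the part of `μ` of density character at least `κ`. -/
def CoversLarge.{u} (κ : Cardinal.{u}) {Ω : Type u} [MeasurableSpace Ω] (μ : Measure Ω)
    (𝓢 : Set (Set Ω)) : Prop :=
  (∀ S ∈ 𝓢, MeasurableSet S ∧ μ S < ∞) ∧
  ∀ E : Set Ω, MeasurableSet E → μ E < ∞ → (∀ S ∈ 𝓢, μ (E ∩ S) = 0) →
    DensityLT κ (Lp ℝ 1 (μ.restrict E))

/-- `κ` is regular and larger than `ℵ₁`. -/
def RegularAboveAlephOne.{u} (κ : Cardinal.{u}) : Prop :=
  κ.IsRegular ∧ Cardinal.aleph 1 < κ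

/-- `L¹(μ|F)` has density character exactly `κ` for every `F ⊆ E` of positive measure. -/
def HomogeneousOn.{u} (κ : Cardinal.{u}) {Ω : Type u} [MeasurableSpace Ω] (μ : Measure Ω)
    (E : Set Ω) : Prop :=
  ∀ F ⊆ E, MeasurableSet F → 0 < μ F →
    (∃ D : Set (Lp ℝ 1 (μ.restrict F)), Dense D ∧ Cardinal.mk D ≤ κ) ∧
    ¬ DensityLT κ (Lp ℝ 1 (μ.restrict F))

/-- Every homogeneous atomless set of finite positive measure has as type `ℵ₀` or a regular
cardinal larger than `ℵ₁`. -/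
def Admissible.{u} {Ω : Type u} [MeasurableSpace Ω] (μ : Measure Ω) : Prop :=
  ∀ (E : Set Ω) (κ : Cardinal.{u}), MeasurableSet E → 0 < μ E → μ E < ∞ →
    (∀ B ⊆ E, ¬ Atom μ B) → HomogeneousOn κ μ E →
    κ = Cardinal.aleph0 ∨ RegularAboveAlephOne κ

/-- The covering condition. -/
def Condition.{u} {Ω : Type u} [MeasurableSpace Ω] (μ : Measure Ω) : Prop :=
  (PurelyAtomic μ ∨
    ∀ 𝓢 : Set (Set Ω), CoversNonatomic μ 𝓢 → Cardinal.continuum ≤ Cardinal.mk 𝓢) ∧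
  ∀ κ : Cardinal.{u}, RegularAboveAlephOne κ →
    ((∀ E : Set Ω, MeasurableSet E → μ E < ∞ → DensityLT κ (Lp ℝ 1 (μ.restrict E))) ∨
      ∀ 𝓢 : Set (Set Ω), CoversLarge κ μ 𝓢 → 2 ^ κ ≤ Cardinal.mk 𝓢)

/-- The Banach space `X` over `𝕜` is isomorphic to the dual of a Banach space over `𝕜`. -/
def IsoToDual.{u} (𝕜 : Type) [RCLike 𝕜] (X : Type u) [NormedAddCommGroup X] [NormedSpace 𝕜 X] :
    Prop :=
  ∃ (Z : Type u) (_ : NormedAddCommGroup Z) (_ : NormedSpace 𝕜 Z) (_ : CompleteSpace Z),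
    Nonempty (X ≃L[𝕜] StrongDual 𝕜 Z)

/-- `Condition μ` is necessary for every measure, and it is sufficient when `μ` is purely atomic
or admissible. -/
theorem result.{u} (Ω : Type u) [MeasurableSpace Ω] (μ : Measure Ω) :
    ((IsoToDual ℝ (Lp ℝ 1 μ) ∨ IsoToDual ℂ (Lp ℂ 1 μ)) → Condition μ) ∧
    ((PurelyAtomic μ ∨ Admissible μ) → Condition μ →
      IsoToDual ℝ (Lp ℝ 1 μ) ∧ IsoToDual ℂ (Lp ℂ 1 μ)) := by
  refine ⟨fun h => W6h79.LD.hNec9 Ω μ h, ?_⟩
  rintro (h | h) hc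
  · have h1 := W6h79.LD.suf_atomic W6h79.LD.sK1 W6h79.LD.sK2 μ h
    exact ⟨h1, W6h79.LD.complexify W6h79.LD.sCX μ h1⟩
  · have h1 := W6h79.LD.hSuf9 Ω μ h hc
    exact ⟨h1, W6h79.LD.complexify W6h79.LD.sCX μ h1⟩

end Pool.Agent.Results.MP_3844f5_an.RegularTypes
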